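import Mathlib

/-!
# Length-area inequality for an injective analytic map into the unit disc
-/

open Set Filter Topology Metric MeasureTheory
open scoped ENNReal

namespace Pool.Agent.Lib.EscapeRay

/-- `∫_{|z|<1} 1/|z| = 2π` -/
theorem lintegral_inv_norm_ball :
    ∫⁻ z in ball (0:ℂ) 1, ENNReal.ofReal (‖z‖⁻¹) = ENNReal.ofReal (2 * Real.pi) := by
  rw [← lintegral_indicator measurableSet_ball, ← Complex.lintegral_comp_polarCoord_symm]
  have h1 : ∀ p ∈ polarCoord.target,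
      ENNReal.ofReal p.1 • (ball (0:ℂ) 1).indicator (fun z => ENNReal.ofReal (‖z‖⁻¹))
        (Complex.polarCoord.symm p) = (Iio (1:ℝ) ×ˢ (univ : Set ℝ)).indicator 1 p := by
    rintro ⟨r, t⟩ ⟨hr, ht⟩
    have hr0 : 0 < r := hr
    have hn : ‖Complex.polarCoord.symm (r, t)‖ = r := by
      rw [Complex.norm_polarCoord_symm]
      exact abs_of_pos hr0
    by_cases hr1 : r < 1
    · have h2 : Complex.polarCoord.symm (r, t) ∈ ball (0:ℂ) 1 := by
        rw [mem_ball_zero_iff, hn]; exact hr1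
      have h3 : ((r, t) : ℝ × ℝ) ∈ Iio (1:ℝ) ×ˢ (univ : Set ℝ) := ⟨hr1, mem_univ _⟩
      rw [indicator_of_mem h2, indicator_of_mem h3, hn, smul_eq_mul,
        ← ENNReal.ofReal_mul hr0.le, mul_inv_cancel₀ hr0.ne', ENNReal.ofReal_one]
      rfl
    · have h2 : Complex.polarCoord.symm (r, t) ∉ ball (0:ℂ) 1 := by
        rw [mem_ball_zero_iff, hn]; exact hr1
      have h3 : ((r, t) : ℝ × ℝ) ∉ Iio (1:ℝ) ×ˢ (univ : Set ℝ) := fun h => hr1 h.1
      rw [indicator_of_notMem h2, indicator_of_notMem h3, smul_zero]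
  rw [setLIntegral_congr_fun polarCoord.open_target.measurableSet h1]
  rw [lintegral_indicator (measurableSet_Iio.prod MeasurableSet.univ)]
  simp only [Pi.one_apply, lintegral_const, one_mul]
  rw [Measure.restrict_restrict (measurableSet_Iio.prod MeasurableSet.univ),
    Measure.restrict_apply_univ]
  have h4 : (Iio (1:ℝ) ×ˢ (univ : Set ℝ)) ∩ polarCoord.target =
      Ioo (0:ℝ) 1 ×ˢ Ioo (-Real.pi) Real.pi := by
    ext ⟨r, t⟩
    simp [polarCoord]
    tauto
  rw [h4, Measure.volume_eq_prod, Measure.prod_prod, Real.volume_Ioo, Real.volume_Ioo]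
  have h5 : Real.pi - -Real.pi = 2 * Real.pi := by ring
  rw [h5, sub_zero, ENNReal.ofReal_one, one_mul]

/-- Jacobian of a complex differentiable map -/
theorem abs_det_restrictScalars (c : ℂ) :
    |((ContinuousLinearMap.toSpanSingleton ℂ c).restrictScalars ℝ : ℂ →L[ℝ] ℂ).det| = ‖c‖ ^ 2 := by
  have h1 : ((ContinuousLinearMap.toSpanSingleton ℂ c).restrictScalars ℝ : ℂ →L[ℝ] ℂ).det =
      LinearMap.det (((ContinuousLinearMap.toSpanSingleton ℂ c : ℂ →L[ℂ] ℂ) :
        ℂ →ₗ[ℂ] ℂ).restrictScalars ℝ) := rfl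
  rw [h1, LinearMap.det_restrictScalars, LinearMap.det_ring, Algebra.norm_complex_apply]
  simp [Complex.normSq_eq_norm_sq]

/-- Weighted area inequality. -/
theorem lintegral_deriv_sq_le {G : ℂ → ℂ} {S : Set ℂ} (hS : IsOpen S)
    (hG : DifferentiableOn ℂ G S) (hmem : ∀ w ∈ S, G w ∈ ball (0:ℂ) 1) (hinj : InjOn G S) :
    ∫⁻ w in S, ENNReal.ofReal (‖deriv G w‖ ^ 2) * ENNReal.ofReal (‖G w‖⁻¹) ≤
      ENNReal.ofReal (2 * Real.pi) := by
  have hf' : ∀ x ∈ S, HasFDerivWithinAt G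
      ((ContinuousLinearMap.toSpanSingleton ℂ (deriv G x)).restrictScalars ℝ : ℂ →L[ℝ] ℂ) S x := by
    intro x hx
    have h1 : HasDerivAt G (deriv G x) x :=
      (hG.differentiableAt (hS.mem_nhds hx)).hasDerivAt
    exact (h1.hasFDerivAt.restrictScalars ℝ).hasFDerivWithinAt
  have h2 := lintegral_image_eq_lintegral_abs_det_fderiv_mul volume hS.measurableSet hf' hinj
    (fun z => ENNReal.ofReal (‖z‖⁻¹))
  simp only [abs_det_restrictScalars] at h2
  rw [← h2, ← lintegral_inv_norm_ball]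
  apply lintegral_mono_set
  rintro _ ⟨w, hw, rfl⟩
  exact hmem w hw

/-- Length-area inequality in additive form. -/
theorem lintegral_deriv_le {G : ℂ → ℂ} {S : Set ℂ} (hS : IsOpen S)
    (hG : DifferentiableOn ℂ G S) (hmem : ∀ w ∈ S, G w ∈ ball (0:ℂ) 1) (hinj : InjOn G S)
    (hne : ∀ w ∈ S, G w ≠ 0) {lam : ℝ} (hlam : 0 < lam) :
    ∫⁻ w in S, ‖deriv G w‖ₑ ≤
      ENNReal.ofReal (Real.pi * lam) + ENNReal.ofReal (1 / (2 * lam)) * ∫⁻ w in S, ‖G w‖ₑ := by
  have hpt : ∀ w ∈ S, ‖deriv G w‖ₑ ≤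
      ENNReal.ofReal (lam / 2) * (ENNReal.ofReal (‖deriv G w‖ ^ 2) * ENNReal.ofReal (‖G w‖⁻¹)) +
        ENNReal.ofReal (1 / (2 * lam)) * ‖G w‖ₑ := by
    intro w hw
    have hpos : 0 < ‖G w‖ := norm_pos_iff.mpr (hne w hw)
    rw [← ofReal_norm, ← ofReal_norm, ← ENNReal.ofReal_mul (by positivity),
      ← ENNReal.ofReal_mul (by positivity), ← ENNReal.ofReal_mul (by positivity),
      ← ENNReal.ofReal_add (by positivity) (by positivity)]
    apply ENNReal.ofReal_le_ofReal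
    set x := ‖deriv G w‖
    set y := ‖G w‖
    have h1 : lam / 2 * (x ^ 2 * y⁻¹) + 1 / (2 * lam) * y - x = (lam * x - y) ^ 2 / (2 * lam * y) := by
      field_simp
      ring
    have h2 : 0 ≤ (lam * x - y) ^ 2 / (2 * lam * y) := by positivity
    linarith
  have hcont : ContinuousOn (fun w => ‖deriv G w‖) S := by
    have h1 : DifferentiableOn ℂ (deriv G) S := hG.deriv hS
    exact h1.continuousOn.norm
  have hGc : ContinuousOn (fun w => ‖G w‖) S := hG.continuousOn.norm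
  have hinv : ContinuousOn (fun w => ‖G w‖⁻¹) S :=
    hGc.inv₀ (fun w hw => (norm_pos_iff.mpr (hne w hw)).ne')
  have hm1 : AEMeasurable (fun w => ENNReal.ofReal (lam / 2) *
      (ENNReal.ofReal (‖deriv G w‖ ^ 2) * ENNReal.ofReal (‖G w‖⁻¹))) (volume.restrict S) := by
    have h1 : ContinuousOn (fun w => ‖deriv G w‖ ^ 2) S := hcont.pow 2
    have h2 := (h1.aemeasurable hS.measurableSet (μ := volume)).ennreal_ofReal
    have h3 := (hinv.aemeasurable hS.measurableSet (μ := volume)).ennreal_ofReal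
    exact (h2.mul h3).const_mul _
  calc ∫⁻ w in S, ‖deriv G w‖ₑ
      ≤ ∫⁻ w in S, (ENNReal.ofReal (lam / 2) *
          (ENNReal.ofReal (‖deriv G w‖ ^ 2) * ENNReal.ofReal (‖G w‖⁻¹)) +
          ENNReal.ofReal (1 / (2 * lam)) * ‖G w‖ₑ) := setLIntegral_mono' hS.measurableSet hpt
    _ = (ENNReal.ofReal (lam / 2) * ∫⁻ w in S,
          (ENNReal.ofReal (‖deriv G w‖ ^ 2) * ENNReal.ofReal (‖G w‖⁻¹))) +
          ENNReal.ofReal (1 / (2 * lam)) * ∫⁻ w in S, ‖G w‖ₑ := by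
        rw [lintegral_add_left' hm1, lintegral_const_mul' _ _ ENNReal.ofReal_ne_top,
          lintegral_const_mul' _ _ ENNReal.ofReal_ne_top]
    _ ≤ ENNReal.ofReal (lam / 2) * ENNReal.ofReal (2 * Real.pi) +
          ENNReal.ofReal (1 / (2 * lam)) * ∫⁻ w in S, ‖G w‖ₑ := by
        gcongr
        exact lintegral_deriv_sq_le hS hG hmem hinj
    _ = ENNReal.ofReal (Real.pi * lam) + ENNReal.ofReal (1 / (2 * lam)) * ∫⁻ w in S, ‖G w‖ₑ := by
        rw [← ENNReal.ofReal_mul (by positivity)]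
        congr 2
        ring

end Pool.Agent.Lib.EscapeRay
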