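import Pool.Agent.Lib.EscapeRay.Start

/-!
# Analytic continuation of the inverse branch along horizontal rays

We construct the largest left-closed open set `Ω` on which the starting germ extends to an analytic
function `G` with `F (G w) = exp w` and values in the unit disc, and show that along a
horizontal ray that meets no critical value the function leaves every compact subset of the disc.
-/

open Set Filter Topology Metric

namespace Pool.Agent.Lib.EscapeRay

/-- An admissible continuation of the germ `G₀`. -/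
structure Adm (F G₀ : ℂ → ℂ) (U : Set ℂ) (g : ℂ → ℂ) : Prop where
  isOpen : IsOpen U
  left : ∀ w ∈ U, ∀ r : ℝ, 0 ≤ r → w - r ∈ U
  diff : DifferentiableOn ℂ g U
  mem : ∀ w ∈ U, g w ∈ ball (0:ℂ) 1
  eq : ∀ w ∈ U, F (g w) = Complex.exp w
  start : ∃ R : ℝ, ∀ w ∈ U, w.re < R → g w = G₀ w

theorem Adm.unique {F G₀ : ℂ → ℂ} {U V : Set ℂ} {g h : ℂ → ℂ} (hU : Adm F G₀ U g)
    (hV : Adm F G₀ V h) {w : ℂ} (hwU : w ∈ U) (hwV : w ∈ V) : g w = h w := by
  obtain ⟨R₁, hR₁⟩ := hU.start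
  obtain ⟨R₂, hR₂⟩ := hV.start
  set S : Set ℂ := (fun r : ℝ => w - r) '' Ici 0 with hS
  have hpre : IsPreconnected S := by
    apply (convex_Ici (0:ℝ)).isPreconnected.image
    fun_prop
  have hSU : S ⊆ U := by
    rintro _ ⟨r, hr, rfl⟩
    exact hU.left w hwU r hr
  have hSV : S ⊆ V := by
    rintro _ ⟨r, hr, rfl⟩
    exact hV.left w hwV r hr
  have hgS : AnalyticOnNhd ℂ g S := fun z hz => hU.diff.analyticAt (hU.isOpen.mem_nhds (hSU hz))
  have hhS : AnalyticOnNhd ℂ h S := fun z hz => hV.diff.analyticAt (hV.isOpen.mem_nhds (hSV hz))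
  set r₀ : ℝ := |w.re - min R₁ R₂| + 1 with hr₀
  have hr₀0 : 0 ≤ r₀ := by positivity
  have hz₀ : w - r₀ ∈ S := ⟨r₀, hr₀0, rfl⟩
  have hre : (w - (r₀:ℂ)).re < min R₁ R₂ := by
    rw [Complex.sub_re, Complex.ofReal_re, hr₀]
    have := le_abs_self (w.re - min R₁ R₂)
    linarith
  have hev : g =ᶠ[𝓝 (w - r₀)] h := by
    have h1 : ∀ᶠ z in 𝓝 (w - (r₀:ℂ)), z ∈ U := hU.isOpen.mem_nhds (hSU hz₀)
    have h2 : ∀ᶠ z in 𝓝 (w - (r₀:ℂ)), z ∈ V := hV.isOpen.mem_nhds (hSV hz₀)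
    have h3 : ∀ᶠ z in 𝓝 (w - (r₀:ℂ)), z.re < min R₁ R₂ :=
      Complex.continuous_re.continuousAt.eventually_lt_const hre
    filter_upwards [h1, h2, h3] with z hz1 hz2 hz3
    rw [hR₁ z hz1 (hz3.trans_le (min_le_left _ _)), hR₂ z hz2 (hz3.trans_le (min_le_right _ _))]
  have := hgS.eqOn_of_preconnected_of_eventuallyEq hhS hpre hz₀ hev
  exact this ⟨0, mem_Ici.2 le_rfl, by simp⟩

/-- the maximal continuation -/
theorem exists_max {F G₀ : ℂ → ℂ} {R : ℝ} (hdiff : DifferentiableOn ℂ G₀ {w | w.re < R})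
    (hG₀ : ∀ w : ℂ, w.re < R → G₀ w ∈ ball (0:ℂ) 1 ∧ F (G₀ w) = Complex.exp w) :
    ∃ (Ω : Set ℂ) (G : ℂ → ℂ), Adm F G₀ Ω G ∧ (∀ w : ℂ, w.re < R → w ∈ Ω ∧ G w = G₀ w) ∧
      ∀ U g, Adm F G₀ U g → U ⊆ Ω := by
  classical
  set Ω : Set ℂ := {w | ∃ U g, Adm F G₀ U g ∧ w ∈ U} with hΩ
  have hex : ∀ w ∈ Ω, ∃ U g, Adm F G₀ U g ∧ w ∈ U := fun w hw => hw
  choose! U g hAdm hmem using hex
  set G : ℂ → ℂ := fun w => g w w with hG
  have hbase : Adm F G₀ {w : ℂ | w.re < R} G₀ := by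
    refine ⟨isOpen_lt Complex.continuous_re continuous_const, ?_, hdiff, fun w hw => (hG₀ w hw).1,
      fun w hw => (hG₀ w hw).2, ⟨R, fun w _ _ => rfl⟩⟩
    intro w hw r hr
    change (w - (r:ℂ)).re < R
    have hw' : w.re < R := hw
    rw [Complex.sub_re, Complex.ofReal_re]; linarith
  have hsub : ∀ V h, Adm F G₀ V h → V ⊆ Ω := fun V h hV w hw => ⟨V, h, hV, hw⟩
  have hGeq : ∀ V h, Adm F G₀ V h → ∀ w ∈ V, G w = h w := by
    intro V h hV w hw
    exact (hAdm w (hsub V h hV hw)).unique hV (hmem w (hsub V h hV hw)) hw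
  have hΩopen : IsOpen Ω := by
    rw [isOpen_iff_forall_mem_open]
    intro w hw
    exact ⟨U w, hsub _ _ (hAdm w hw), (hAdm w hw).isOpen, hmem w hw⟩
  have hΩleft : ∀ w ∈ Ω, ∀ r : ℝ, 0 ≤ r → w - r ∈ Ω := by
    intro w hw r hr
    exact hsub _ _ (hAdm w hw) ((hAdm w hw).left w (hmem w hw) r hr)
  have hbaseΩ : ∀ w : ℂ, w.re < R → w ∈ Ω ∧ G w = G₀ w := fun w hw =>
    ⟨hsub _ _ hbase hw, hGeq _ _ hbase w hw⟩
  refine ⟨Ω, G, ⟨hΩopen, hΩleft, ?_, ?_, ?_, ⟨R, fun w _ hw => (hbaseΩ w hw).2⟩⟩, hbaseΩ, hsub⟩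
  · intro w hw
    have h1 : DifferentiableAt ℂ (g w) w :=
      (hAdm w hw).diff.differentiableAt ((hAdm w hw).isOpen.mem_nhds (hmem w hw))
    have h2 : G =ᶠ[𝓝 w] g w := by
      filter_upwards [(hAdm w hw).isOpen.mem_nhds (hmem w hw)] with z hz
      exact hGeq _ _ (hAdm w hw) z hz
    exact (h2.symm.differentiableAt_iff.1 h1).differentiableWithinAt
  · intro w hw
    exact (hAdm w hw).mem w (hmem w hw)
  · intro w hw
    exact (hAdm w hw).eq w (hmem w hw)

/-- Along a ray without critical values, at the end of the maximal domain, `G` leaves every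
compact subset of the unit disc. -/
theorem tendsto_norm_one {F G₀ : ℂ → ℂ} {R : ℝ} (hF : DifferentiableOn ℂ F (ball 0 1))
    {Ω : Set ℂ} {G : ℂ → ℂ} (hΩ : Adm F G₀ Ω G)
    (hmax : ∀ U g, Adm F G₀ U g → U ⊆ Ω) {θ a : ℝ}
    (hgood : ∀ z ∈ ball (0:ℂ) 1, F z = Complex.exp (a + θ * Complex.I) → deriv F z ≠ 0)
    (hlt : ∀ s < a, ((s:ℂ) + θ * Complex.I) ∈ Ω) (hnot : ((a:ℂ) + θ * Complex.I) ∉ Ω)
    (hR : ∀ w : ℂ, w.re < R → w ∈ Ω ∧ G w = G₀ w) :
    Tendsto (fun s : ℝ => ‖G (s + θ * Complex.I)‖) (𝓝[<] a) (𝓝 1) := by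
  by_contra hcon
  rw [Metric.tendsto_nhds] at hcon
  push Not at hcon
  obtain ⟨ε, hε, hfreq⟩ := hcon
  -- frequently in a compact set
  have hfreq2 : ∃ᶠ s : ℝ in 𝓝[<] a, G ((s:ℂ) + θ * Complex.I) ∈ closedBall (0:ℂ) (1 - ε) := by
    have hev : ∀ᶠ s : ℝ in 𝓝[<] a, s < a := self_mem_nhdsWithin
    refine (hfreq.and_eventually hev).mono ?_
    rintro s ⟨h1, h2⟩
    rw [mem_closedBall_zero_iff]
    have h3 := hΩ.mem _ (hlt s h2)
    rw [mem_ball_zero_iff] at h3
    rw [Real.dist_eq, abs_of_nonpos (by linarith)] at h1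
    linarith
  obtain ⟨z₀, hz₀, hclus⟩ := (isCompact_closedBall (0:ℂ) (1 - ε)).exists_mapClusterPt_of_frequently
    hfreq2
  have hz₀b : z₀ ∈ ball (0:ℂ) 1 := by
    rw [mem_ball_zero_iff]
    rw [mem_closedBall_zero_iff] at hz₀
    linarith
  set w₀ : ℂ := (a:ℂ) + θ * Complex.I with hw₀
  have hFz₀ : AnalyticAt ℂ F z₀ := hF.analyticAt (isOpen_ball.mem_nhds hz₀b)
  have hFeq : F z₀ = Complex.exp w₀ := by
    have h1 : MapClusterPt (F z₀) (𝓝[<] a) (fun s : ℝ => F (G ((s:ℂ) + θ * Complex.I))) :=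
      hclus.continuousAt_comp hFz₀.continuousAt
    have h2 : Tendsto (fun s : ℝ => F (G ((s:ℂ) + θ * Complex.I))) (𝓝[<] a)
        (𝓝 (Complex.exp w₀)) := by
      have h3 : Tendsto (fun s : ℝ => Complex.exp ((s:ℂ) + θ * Complex.I)) (𝓝[<] a)
          (𝓝 (Complex.exp w₀)) := by
        have : Continuous (fun s : ℝ => Complex.exp ((s:ℂ) + θ * Complex.I)) := by fun_prop
        exact (this.tendsto a).mono_left nhdsWithin_le_nhds
      refine h3.congr' ?_
      filter_upwards [self_mem_nhdsWithin] with s hs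
      exact (hΩ.eq _ (hlt s hs)).symm
    have h4 : F z₀ = Complex.exp w₀ := by
      by_contra hne
      obtain ⟨u, v, hu, hv, hu0, hv0, huv⟩ := t2_separation hne
      have h5 := h1.frequently (hu.mem_nhds hu0)
      have h6 := h2.eventually (hv.mem_nhds hv0)
      obtain ⟨s, hs1, hs2⟩ := (h5.and_eventually h6).exists
      exact Set.disjoint_left.1 huv hs1 hs2
    exact h4
  have hd : deriv F z₀ ≠ 0 := hgood z₀ hz₀b hFeq
  set ℓ := hFz₀.hasStrictDerivAt.localInverse _ _ _ hd with hℓ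
  have hℓa : AnalyticAt ℂ ℓ (F z₀) := hFz₀.analyticAt_localInverse hd
  have hleft : ∀ᶠ z in 𝓝 z₀, ℓ (F z) = z :=
    HasStrictDerivAt.eventually_left_inverse hFz₀.hasStrictDerivAt hd
  have hright : ∀ᶠ y in 𝓝 (F z₀), F (ℓ y) = y :=
    HasStrictDerivAt.eventually_right_inverse hFz₀.hasStrictDerivAt hd
  have hℓz : ℓ (F z₀) = z₀ := hleft.self_of_nhds
  have hℓball : ∀ᶠ y in 𝓝 (F z₀), ℓ y ∈ ball (0:ℂ) 1 := by
    have h1 := hℓa.continuousAt.tendsto
    rw [hℓz] at h1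
    exact h1.eventually (isOpen_ball.mem_nhds hz₀b)
  have hℓd : ∀ᶠ y in 𝓝 (F z₀), DifferentiableAt ℂ ℓ y := by
    filter_upwards [hℓa.eventually_analyticAt] with y hy using hy.differentiableAt
  rw [hFeq] at hright hℓball hℓd
  have hexp : Tendsto Complex.exp (𝓝 w₀) (𝓝 (Complex.exp w₀)) := Complex.continuous_exp.tendsto w₀
  obtain ⟨δ, hδ, hδball⟩ := Metric.eventually_nhds_iff_ball.1
    ((hexp.eventually hright).and ((hexp.eventually hℓball).and (hexp.eventually hℓd)))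
  -- choose a time `s` close to `a`
  have hnear : ∀ᶠ s : ℝ in 𝓝[<] a, a - δ / 4 < s ∧ s < a := by
    filter_upwards [Ioo_mem_nhdsLT (show a - δ / 4 < a by linarith)] with s hs using hs
  have hfr : ∃ᶠ s : ℝ in 𝓝[<] a, ∀ᶠ z in 𝓝 (G ((s:ℂ) + θ * Complex.I)), ℓ (F z) = z :=
    hclus.frequently hleft.eventually_nhds
  obtain ⟨s, hsN, hs1, hs2⟩ := (hfr.and_eventually hnear).exists
  set w₁ : ℂ := (s:ℂ) + θ * Complex.I with hw₁
  have hw₁Ω : w₁ ∈ Ω := hlt s hs2
  have hGan : AnalyticAt ℂ G w₁ := hΩ.diff.analyticAt (hΩ.isOpen.mem_nhds hw₁Ω)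
  have hGev : ∀ᶠ w in 𝓝 w₁, ℓ (F (G w)) = G w := hGan.continuousAt.eventually hsN
  have hΩev : ∀ᶠ w in 𝓝 w₁, w ∈ Ω := hΩ.isOpen.mem_nhds hw₁Ω
  obtain ⟨η₀, hη₀, hηball⟩ := Metric.eventually_nhds_iff_ball.1 (hGev.and hΩev)
  set η : ℝ := min (η₀ / 2) (δ / 4) with hη
  have hηpos : 0 < η := lt_min (by linarith) (by linarith)
  have hη1 : η ≤ η₀ / 2 := min_le_left _ _
  have hη2 : η ≤ δ / 4 := min_le_right _ _
  -- boxes are contained in balls
  have hbox₁ : ∀ w : ℂ, |w.re - s| < η → |w.im - θ| < η → w ∈ ball w₁ η₀ := by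
    intro w h1 h2
    rw [mem_ball, dist_eq_norm]
    calc ‖w - w₁‖ ≤ |(w - w₁).re| + |(w - w₁).im| := Complex.norm_le_abs_re_add_abs_im _
      _ = |w.re - s| + |w.im - θ| := by simp [hw₁]
      _ < η₀ := by linarith
  have hbox₀ : ∀ w : ℂ, s - η < w.re → w.re < a + δ / 4 → |w.im - θ| < η → w ∈ ball w₀ δ := by
    intro w h1 h2 h3
    rw [mem_ball, dist_eq_norm]
    have h4 : |w.re - a| < δ / 2 := by
      rw [abs_lt]; constructor <;> linarith
    calc ‖w - w₀‖ ≤ |(w - w₀).re| + |(w - w₀).im| := Complex.norm_le_abs_re_add_abs_im _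
      _ = |w.re - a| + |w.im - θ| := by simp [hw₀]
      _ < δ := by linarith
  set U : Set ℂ := {w | w.re < a + δ / 4 ∧ |w.im - θ| < η} with hU
  have hUopen : IsOpen U := by
    apply (isOpen_lt Complex.continuous_re continuous_const).inter
    exact isOpen_lt (f := fun w : ℂ => |w.im - θ|) (by fun_prop) continuous_const
  have hleftΩ : ∀ w : ℂ, w.re < s + η → |w.im - θ| < η → w ∈ Ω := by
    intro w h1 h2
    rcases lt_or_ge (s - η) w.re with h3 | h3
    · exact (hηball w (hbox₁ w (by rw [abs_lt]; constructor <;> linarith) h2)).2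
    · have h4 : ((s:ℂ) + w.im * Complex.I) ∈ Ω := by
        refine (hηball _ (hbox₁ _ ?_ ?_)).2
        · simpa using hηpos
        · simpa using h2
      have h5 := hΩ.left _ h4 (s - w.re) (by linarith)
      have h6 : ((s:ℂ) + w.im * Complex.I) - ((s - w.re : ℝ) : ℂ) = w := by
        apply Complex.ext <;> simp
      rwa [h6] at h5
  set g : ℂ → ℂ := fun w => if w.re < s then G w else ℓ (Complex.exp w) with hg
  have hg1 : ∀ w : ℂ, w.re < s → g w = G w := fun w hw => by simp only [hg, if_pos hw]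
  have hg2 : ∀ w : ℂ, s - η < w.re → |w.im - θ| < η → g w = ℓ (Complex.exp w) := by
    intro w h1 h2
    by_cases h3 : w.re < s
    · rw [hg1 w h3]
      have h4 := hηball w (hbox₁ w (by rw [abs_lt]; constructor <;> linarith) h2)
      rw [← hΩ.eq w h4.2]
      exact h4.1.symm
    · simp only [hg, if_neg h3]
  have hAdm : Adm F G₀ U g := by
    refine ⟨hUopen, ?_, ?_, ?_, ?_, ?_⟩
    · rintro w ⟨h1, h2⟩ r hr
      refine ⟨?_, ?_⟩
      · rw [Complex.sub_re, Complex.ofReal_re]; linarith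
      · simpa using h2
    · rintro w ⟨h1, h2⟩
      rcases lt_or_ge w.re s with h3 | h3
      · have h4 : g =ᶠ[𝓝 w] G := by
          filter_upwards [Complex.continuous_re.continuousAt.eventually_lt_const h3] with z hz
          exact hg1 z hz
        have h5 : DifferentiableAt ℂ G w :=
          hΩ.diff.differentiableAt (hΩ.isOpen.mem_nhds (hleftΩ w (by linarith) h2))
        exact (h4.differentiableAt_iff.2 h5).differentiableWithinAt
      · have h4 : g =ᶠ[𝓝 w] fun w => ℓ (Complex.exp w) := by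
          have h5 : ∀ᶠ z : ℂ in 𝓝 w, s - η < z.re :=
            Complex.continuous_re.continuousAt.eventually_const_lt (by linarith)
          have h6 : ∀ᶠ z : ℂ in 𝓝 w, |z.im - θ| < η := by
            have : Continuous fun z : ℂ => |z.im - θ| := by fun_prop
            exact this.continuousAt.eventually_lt_const h2
          filter_upwards [h5, h6] with z hz1 hz2
          exact hg2 z hz1 hz2
        have h5 := (hδball w (hbox₀ w (by linarith) h1 h2)).2.2
        have h6 : DifferentiableAt ℂ (fun w => ℓ (Complex.exp w)) w :=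
          DifferentiableAt.comp w h5 Complex.differentiableAt_exp
        exact (h4.differentiableAt_iff.2 h6).differentiableWithinAt
    · rintro w ⟨h1, h2⟩
      rcases lt_or_ge w.re s with h3 | h3
      · rw [hg1 w h3]; exact hΩ.mem w (hleftΩ w (by linarith) h2)
      · rw [hg2 w (by linarith) h2]
        exact (hδball w (hbox₀ w (by linarith) h1 h2)).2.1
    · rintro w ⟨h1, h2⟩
      rcases lt_or_ge w.re s with h3 | h3
      · rw [hg1 w h3]; exact hΩ.eq w (hleftΩ w (by linarith) h2)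
      · rw [hg2 w (by linarith) h2]
        exact (hδball w (hbox₀ w (by linarith) h1 h2)).1
    · refine ⟨min s R, fun w _ hw => ?_⟩
      rw [hg1 w (hw.trans_le (min_le_left _ _))]
      exact (hR w (hw.trans_le (min_le_right _ _))).2
  refine hnot (hmax U g hAdm ?_)
  refine ⟨?_, ?_⟩
  · simp only [hw₀, Complex.add_re, Complex.ofReal_re, Complex.mul_re, Complex.I_re, mul_zero,
      Complex.ofReal_im, Complex.I_im, mul_one, sub_self, add_zero]
    linarith
  · simpa [hw₀] using hηpos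

end Pool.Agent.Lib.EscapeRay
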