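import Pool.Agent.Lib.EscapeRay.Continuation
import Pool.Agent.Lib.EscapeRay.Area

/-!
# Selection of a short ray
-/

open Set Filter Topology Metric MeasureTheory
open scoped ENNReal

namespace Pool.Agent.Lib.EscapeRay

/-- Fubini on a set cut out by horizontal half lines. -/
theorem lintegral_strip {S : Set ℂ} (hS : MeasurableSet S) {φ : ℂ → ℝ≥0∞}
    (hφ : AEMeasurable φ (volume.restrict S)) :
    ∫⁻ w in S, φ w = ∫⁻ θ : ℝ, ∫⁻ s : ℝ, S.indicator φ (s + θ * Complex.I) := by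
  have h1 : AEMeasurable (S.indicator φ) volume := (aemeasurable_indicator_iff hS).2 hφ
  rw [← lintegral_indicator hS]
  have h2 := (Complex.volume_preserving_equiv_real_prod.symm).lintegral_comp_emb
    Complex.measurableEquivRealProd.symm.measurableEmbedding (S.indicator φ)
  rw [← h2, Measure.volume_eq_prod, lintegral_prod_symm]
  · have h3 : ∀ x y : ℝ, Complex.measurableEquivRealProd.symm (x, y) = (x:ℂ) + y * Complex.I := by
      intro x y
      exact Complex.equivRealProd_symm_apply (x, y)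
    simp only [h3]
  · exact h1.comp_quasiMeasurePreserving
      (Complex.volume_preserving_equiv_real_prod.symm).quasiMeasurePreserving

theorem setLIntegral_Iio_le {f : ℝ → ℝ≥0∞} {a : ℝ} {K : ℝ≥0∞}
    (h : ∀ τ < a, ∫⁻ s in Iic τ, f s ≤ K) : ∫⁻ s in Iio a, f s ≤ K := by
  have h1 : Iio a = ⋃ n : ℕ, Iic (a - 1 / ((n:ℝ) + 1)) := by
    ext s
    simp only [mem_Iio, mem_iUnion, mem_Iic]
    constructor
    · intro hs
      obtain ⟨n, hn⟩ := exists_nat_one_div_lt (sub_pos.mpr hs)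
      exact ⟨n, by linarith⟩
    · rintro ⟨n, hn⟩
      have : (0:ℝ) < 1 / ((n:ℝ) + 1) := by positivity
      linarith
  have hdir : Directed (· ⊆ ·) (fun n : ℕ => Iic (a - 1 / ((n:ℝ) + 1))) := by
    apply Monotone.directed_le
    intro m n hmn
    apply Iic_subset_Iic.mpr
    have : (1:ℝ) / ((n:ℝ) + 1) ≤ 1 / ((m:ℝ) + 1) := by
      apply one_div_le_one_div_of_le (by positivity)
      have : (m:ℝ) ≤ n := by exact_mod_cast hmn
      linarith
    linarith
  rw [h1, setLIntegral_iUnion_of_directed _ hdir]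
  apply iSup_le
  intro n
  apply h
  have : (0:ℝ) < 1 / ((n:ℝ) + 1) := by positivity
  linarith

theorem exists_short_ray {F : ℂ → ℂ} (hF : DifferentiableOn ℂ F (ball 0 1)) (h0 : F 0 = 0)
    (hne : ¬ ∀ᶠ z in 𝓝 (0:ℂ), F z = 0) {α β : ℝ} (hαβ : α < β) (hπ : β - α < 2 * Real.pi)
    (hcrit : {z ∈ ball (0:ℂ) 1 | deriv F z = 0}.Countable) {B : ℝ}
    (hB : ∀ z ∈ ball (0:ℂ) 1, ∀ θ ∈ Ioo α β, ∀ s : ℝ, F z = Complex.exp (s + θ * Complex.I) → s ≤ B)
    {K : ℝ} (hK0 : 0 ≤ K)
    (hK : ∀ θ ∈ Ioo α β, ∀ (z : ℝ → ℂ) (τ : ℝ), ContinuousOn z (Iic τ) →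
      (∀ s ≤ τ, z s ∈ ball (0:ℂ) 1 ∧ F (z s) = Complex.exp (s + θ * Complex.I)) →
      Tendsto z atBot (𝓝 0) → ∫⁻ s in Iic τ, ‖z s‖ₑ ≤ ENNReal.ofReal K)
    {lam C : ℝ} (hlam : 0 < lam)
    (hC : Real.pi * lam + 1 / (2 * lam) * (K * (β - α)) < C * (β - α)) :
    ∃ θ ∈ Ioo α β, ∃ (a : ℝ) (z z' : ℝ → ℂ), (∀ s < a, HasDerivAt z (z' s) s) ∧
      ContinuousOn z' (Iio a) ∧ Tendsto z atBot (𝓝 0) ∧
      Tendsto (fun s => ‖z s‖) (𝓝[<] a) (𝓝 1) ∧
      (∀ s < a, z s ∈ ball (0:ℂ) 1 ∧ F (z s) = Complex.exp (s + θ * Complex.I)) ∧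
      ∫⁻ s in Iio a, ‖z' s‖ₑ ≤ ENNReal.ofReal C := by
  have hFa : AnalyticAt ℂ F 0 := hF.analyticAt (isOpen_ball.mem_nhds (mem_ball_self one_pos))
  obtain ⟨R, G₀, hG₀d, hG₀, hG₀t⟩ := exists_start hFa h0 hne
  obtain ⟨Ω, G, hΩ, hΩR, hmax⟩ := exists_max hG₀d hG₀
  -- the slices
  set A : ℝ → Set ℝ := fun θ => {s : ℝ | ((s:ℂ) + θ * Complex.I) ∈ Ω} with hA
  have hAleft : ∀ θ, ∀ s ∈ A θ, ∀ t ≤ s, t ∈ A θ := by
    intro θ s hs t ht
    have h1 := hΩ.left _ hs (s - t) (by linarith)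
    have h2 : ((s:ℂ) + θ * Complex.I) - ((s - t : ℝ) : ℂ) = (t:ℂ) + θ * Complex.I := by
      push_cast; ring
    rw [h2] at h1
    exact h1
  have hAR : ∀ θ, ∀ s < R, s ∈ A θ := by
    intro θ s hs
    exact (hΩR _ (by simpa using hs)).1
  have hAbdd : ∀ θ ∈ Ioo α β, ∀ s ∈ A θ, s ≤ B := by
    intro θ hθ s hs
    exact hB _ (hΩ.mem _ hs) θ hθ s (hΩ.eq _ hs)
  have hAopen : ∀ θ, IsOpen (A θ) := by
    intro θ
    have : Continuous fun s : ℝ => (s:ℂ) + θ * Complex.I := by fun_prop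
    exact hΩ.isOpen.preimage this
  set a : ℝ → ℝ := fun θ => sSup (A θ) with ha
  have hAeq : ∀ θ ∈ Ioo α β, A θ = Iio (a θ) := by
    intro θ hθ
    have hbd : BddAbove (A θ) := ⟨B, fun s hs => hAbdd θ hθ s hs⟩
    have hnon : (A θ).Nonempty := ⟨R - 1, hAR θ _ (by linarith)⟩
    ext s
    constructor
    · intro hs
      -- openness
      obtain ⟨ε, hε, hball⟩ := Metric.isOpen_iff.1 (hAopen θ) s hs
      have h1 : s + ε / 2 ∈ A θ := hball (by
        rw [mem_ball, Real.dist_eq, add_sub_cancel_left, abs_of_pos (by linarith)]; linarith)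
      have h2 := le_csSup hbd h1
      change s < sSup (A θ)
      linarith
    · intro hs
      obtain ⟨t, ht, hst⟩ := exists_lt_of_lt_csSup hnon hs
      exact hAleft θ t ht s hst.le
  -- the strip part
  set S : Set ℂ := Ω ∩ {w : ℂ | w.im ∈ Ioo α β} with hS
  have hSopen : IsOpen S := hΩ.isOpen.inter (isOpen_Ioo.preimage Complex.continuous_im)
  have hSd : DifferentiableOn ℂ G S := hΩ.diff.mono inter_subset_left
  have hinj : InjOn G S := by
    intro w hw w' hw' hww
    have h1 : Complex.exp w = Complex.exp w' := by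
      rw [← hΩ.eq w hw.1, ← hΩ.eq w' hw'.1, hww]
    rw [Complex.exp_eq_exp_iff_exists_int] at h1
    obtain ⟨k, hk⟩ := h1
    have h2 : w.im = w'.im + k * (2 * Real.pi) := by
      have := congrArg Complex.im hk
      simpa using this
    have h3 : |w.im - w'.im| < 2 * Real.pi := by
      have h4 := hw.2
      have h5 := hw'.2
      simp only [mem_ofPred_eq, mem_Ioo] at h4 h5
      rw [abs_lt]; constructor <;> linarith [h4.1, h4.2, h5.1, h5.2]
    have h4 : k = 0 := by
      have h5 : |(k:ℝ)| * (2 * Real.pi) < 1 * (2 * Real.pi) := by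
        rw [one_mul]
        calc |(k:ℝ)| * (2 * Real.pi) = |w.im - w'.im| := by
              rw [h2, add_sub_cancel_left, abs_mul, abs_of_pos (by positivity : (0:ℝ) < 2 * Real.pi)]
          _ < _ := h3
      have h6 : |(k:ℝ)| < 1 := lt_of_mul_lt_mul_right h5 (by positivity)
      have h7 : |k| < 1 := by exact_mod_cast h6
      exact Int.abs_lt_one_iff.1 h7
    rw [hk, h4]; simp
  have hne0 : ∀ w ∈ S, G w ≠ 0 := by
    intro w hw h
    have h1 := hΩ.eq w hw.1
    rw [h, h0] at h1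
    exact Complex.exp_ne_zero w h1.symm
  have hmain := lintegral_deriv_le hSopen hSd (fun w hw => hΩ.mem w hw.1) hinj hne0 hlam
  -- Fubini
  have hind : ∀ (φ : ℂ → ℝ≥0∞) (θ : ℝ), ∫⁻ s : ℝ, S.indicator φ (s + θ * Complex.I) =
      (Ioo α β).indicator (fun θ => ∫⁻ s in Iio (a θ), φ (s + θ * Complex.I)) θ := by
    intro φ θ
    by_cases hθ : θ ∈ Ioo α β
    · rw [indicator_of_mem hθ, ← hAeq θ hθ, ← lintegral_indicator (hAopen θ).measurableSet]
      congr 1
      ext s
      by_cases hs : s ∈ A θ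
      · have h1 : ((s:ℂ) + θ * Complex.I) ∈ S := ⟨hs, by simpa using hθ⟩
        rw [indicator_of_mem h1, indicator_of_mem hs]
      · have h1 : ((s:ℂ) + θ * Complex.I) ∉ S := fun h => hs h.1
        rw [indicator_of_notMem h1, indicator_of_notMem hs]
    · rw [indicator_of_notMem hθ]
      have h1 : ∀ s : ℝ, S.indicator φ (s + θ * Complex.I) = 0 := by
        intro s
        have h1 : ((s:ℂ) + θ * Complex.I) ∉ S := fun h => hθ (by simpa using h.2)
        rw [indicator_of_notMem h1]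
      simp [h1]
  have hGm : AEMeasurable (fun w => ‖G w‖ₑ) (volume.restrict S) :=
    (hSd.continuousOn.aemeasurable hSopen.measurableSet).enorm
  have hG'm : AEMeasurable (fun w => ‖deriv G w‖ₑ) (volume.restrict S) :=
    ((hSd.deriv hSopen).continuousOn.aemeasurable hSopen.measurableSet).enorm
  have hGbot : ∀ θ : ℝ, Tendsto (fun s : ℝ => G (s + θ * Complex.I)) atBot (𝓝 0) := by
    intro θ
    refine (hG₀t θ).congr' ?_
    filter_upwards [eventually_lt_atBot R] with s hs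
    exact (hΩR _ (by simpa using hs)).2.symm
  have hGcont : ∀ θ ∈ Ioo α β, ∀ s < a θ, HasDerivAt (fun s : ℝ => G (s + θ * Complex.I))
      (deriv G (s + θ * Complex.I)) s := by
    intro θ hθ s hs
    have h1 : s ∈ A θ := by rw [hAeq θ hθ]; exact hs
    have h2 : HasDerivAt G (deriv G (s + θ * Complex.I)) (s + θ * Complex.I) :=
      (hΩ.diff.differentiableAt (hΩ.isOpen.mem_nhds h1)).hasDerivAt
    have h3 : HasDerivAt (fun s : ℝ => (s:ℂ) + θ * Complex.I) 1 s :=
      (Complex.ofRealCLM.hasDerivAt (x := s)).add_const _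
    have h4 := HasDerivAt.comp_of_eq s h2 h3 rfl
    exact h4.congr_deriv (mul_one _)
  have hGint : ∫⁻ w in S, ‖G w‖ₑ ≤ ENNReal.ofReal (K * (β - α)) := by
    rw [lintegral_strip hSopen.measurableSet hGm]
    simp only [hind]
    rw [lintegral_indicator measurableSet_Ioo]
    calc ∫⁻ θ in Ioo α β, ∫⁻ s in Iio (a θ), ‖G (s + θ * Complex.I)‖ₑ
        ≤ ∫⁻ θ in Ioo α β, ENNReal.ofReal K := by
          apply setLIntegral_mono' measurableSet_Ioo
          intro θ hθ
          apply setLIntegral_Iio_le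
          intro τ hτ
          refine hK θ hθ (fun s => G (s + θ * Complex.I)) τ ?_ ?_ (hGbot θ)
          · intro s hs
            exact (hGcont θ hθ s (lt_of_le_of_lt hs hτ)).continuousAt.continuousWithinAt
          · intro s hs
            have h1 : s ∈ A θ := by rw [hAeq θ hθ]; exact lt_of_le_of_lt hs hτ
            exact ⟨hΩ.mem _ h1, hΩ.eq _ h1⟩
      _ = ENNReal.ofReal (K * (β - α)) := by
          rw [setLIntegral_const, Real.volume_Ioo, ← ENNReal.ofReal_mul hK0]
  -- the set of bad angles is countable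
  set bad : Set ℝ := {θ ∈ Ioo α β | ∃ z ∈ ball (0:ℂ) 1, deriv F z = 0 ∧
    ∃ s : ℝ, F z = Complex.exp (s + θ * Complex.I)} with hbad
  have hbadc : bad.Countable := by
    have h1 : bad ⊆ ⋃ z ∈ {z ∈ ball (0:ℂ) 1 | deriv F z = 0},
        {θ ∈ Ioo α β | ∃ s : ℝ, F z = Complex.exp (s + θ * Complex.I)} := by
      rintro θ ⟨hθ, z, hz, hz', hs⟩
      simp only [mem_iUnion]
      exact ⟨z, ⟨hz, hz'⟩, hθ, hs⟩
    refine Countable.mono h1 (hcrit.biUnion ?_)
    intro z _
    apply Set.Subsingleton.countable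
    rintro θ ⟨hθ, s, hs⟩ θ' ⟨hθ', s', hs'⟩
    rw [hs, Complex.exp_eq_exp_iff_exists_int] at hs'
    obtain ⟨k, hk⟩ := hs'
    have h2 : θ = θ' + k * (2 * Real.pi) := by
      have := congrArg Complex.im hk
      simpa using this
    have h3 : |θ - θ'| < 2 * Real.pi := by
      rw [abs_lt]; constructor <;> linarith [hθ.1, hθ.2, hθ'.1, hθ'.2]
    have h4 : k = 0 := by
      have h5 : |(k:ℝ)| * (2 * Real.pi) < 1 * (2 * Real.pi) := by
        rw [one_mul]
        calc |(k:ℝ)| * (2 * Real.pi) = |θ - θ'| := by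
              rw [h2, add_sub_cancel_left, abs_mul, abs_of_pos (by positivity : (0:ℝ) < 2 * Real.pi)]
          _ < _ := h3
      have h6 : |(k:ℝ)| < 1 := lt_of_mul_lt_mul_right h5 (by positivity)
      have h7 : |k| < 1 := by exact_mod_cast h6
      exact Int.abs_lt_one_iff.1 h7
    rw [h2, h4]; simp
  -- selection
  have hsel : ∃ θ ∈ Ioo α β, θ ∉ bad ∧
      ∫⁻ s in Iio (a θ), ‖deriv G (s + θ * Complex.I)‖ₑ ≤ ENNReal.ofReal C := by
    by_contra hcon
    push Not at hcon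
    have hC0 : 0 < C := by
      have h1 : 0 < Real.pi * lam + 1 / (2 * lam) * (K * (β - α)) := by
        have : 0 ≤ 1 / (2 * lam) * (K * (β - α)) := by
          have := sub_pos.mpr hαβ
          positivity
        have := Real.pi_pos
        positivity
      have h2 : 0 < C * (β - α) := h1.trans hC
      exact pos_of_mul_pos_left h2 (sub_pos.mpr hαβ).le
    have h1 : ENNReal.ofReal (C * (β - α)) ≤
        ∫⁻ θ in Ioo α β, ∫⁻ s in Iio (a θ), ‖deriv G (s + θ * Complex.I)‖ₑ := by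
      calc ENNReal.ofReal (C * (β - α)) = ∫⁻ θ in Ioo α β, ENNReal.ofReal C := by
            rw [setLIntegral_const, Real.volume_Ioo, ← ENNReal.ofReal_mul hC0.le]
        _ ≤ _ := by
            apply lintegral_mono_ae
            have h2 : ∀ᵐ θ ∂(volume.restrict (Ioo α β)), θ ∉ bad :=
              ae_restrict_of_ae (hbadc.ae_notMem _)
            filter_upwards [h2, ae_restrict_mem measurableSet_Ioo] with θ hθ1 hθ2
            exact (hcon θ hθ2 hθ1).le
    have h2 : ∫⁻ θ in Ioo α β, ∫⁻ s in Iio (a θ), ‖deriv G (s + θ * Complex.I)‖ₑ =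
        ∫⁻ w in S, ‖deriv G w‖ₑ := by
      rw [lintegral_strip hSopen.measurableSet hG'm]
      simp only [hind]
      rw [lintegral_indicator measurableSet_Ioo]
    have h3 : ENNReal.ofReal (C * (β - α)) ≤
        ENNReal.ofReal (Real.pi * lam + 1 / (2 * lam) * (K * (β - α))) := by
      calc ENNReal.ofReal (C * (β - α)) ≤ ∫⁻ w in S, ‖deriv G w‖ₑ := by rw [← h2]; exact h1
        _ ≤ _ := hmain
        _ ≤ ENNReal.ofReal (Real.pi * lam) +
            ENNReal.ofReal (1 / (2 * lam)) * ENNReal.ofReal (K * (β - α)) := by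
            gcongr
        _ = _ := by
            have := sub_pos.mpr hαβ
            rw [← ENNReal.ofReal_mul (by positivity), ← ENNReal.ofReal_add (by positivity)
              (by positivity)]
    have h4 : C * (β - α) ≤ Real.pi * lam + 1 / (2 * lam) * (K * (β - α)) := by
      have := sub_pos.mpr hαβ
      rwa [ENNReal.ofReal_le_ofReal_iff (by positivity)] at h3
    linarith
  obtain ⟨θ, hθ, hθb, hθl⟩ := hsel
  refine ⟨θ, hθ, a θ, fun s => G (s + θ * Complex.I), fun s => deriv G (s + θ * Complex.I),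
    hGcont θ hθ, ?_, hGbot θ, ?_, ?_, hθl⟩
  · intro s hs
    have h1 : s ∈ A θ := by rw [hAeq θ hθ]; exact hs
    have h2 : ContinuousAt (deriv G) (s + θ * Complex.I) :=
      (hΩ.diff.analyticAt (hΩ.isOpen.mem_nhds h1)).deriv.continuousAt
    have h3 : ContinuousAt (fun s : ℝ => (s:ℂ) + θ * Complex.I) s := by fun_prop
    exact (ContinuousAt.comp (f := fun s : ℝ => (s:ℂ) + θ * Complex.I) h2 h3).continuousWithinAt
  · apply tendsto_norm_one hF hΩ hmax (θ := θ) (a := a θ) _ _ _ hΩR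
    · intro z hz hFz hd
      exact hθb ⟨hθ, z, hz, hd, a θ, hFz⟩
    · intro s hs
      have h1 : s ∈ A θ := by rw [hAeq θ hθ]; exact hs
      exact h1
    · intro h
      have h1 : a θ ∈ A θ := h
      rw [hAeq θ hθ] at h1
      exact lt_irrefl (a θ) h1
  · intro s hs
    have h1 : s ∈ A θ := by rw [hAeq θ hθ]; exact hs
    exact ⟨hΩ.mem _ h1, hΩ.eq _ h1⟩

end Pool.Agent.Lib.EscapeRay
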