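import Mathlib

/-!
# The starting germ of the inverse branch along rays

For an analytic function `F` near `0` with `F 0 = 0`, not locally zero, there is an analytic
function `G₀` on a left half plane with `F (G₀ w) = exp w`, tending to `0` at the far left.
-/

open Set Filter Topology Metric

namespace Pool.Agent.Lib.EscapeRay

/-- local normal form: `F (ψ y) = y ^ m` -/
theorem exists_local_root {F : ℂ → ℂ} (hF : AnalyticAt ℂ F 0) (h0 : F 0 = 0)
    (hne : ¬ ∀ᶠ z in 𝓝 (0:ℂ), F z = 0) :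
    ∃ (m : ℕ) (ψ : ℂ → ℂ), 0 < m ∧ AnalyticAt ℂ ψ 0 ∧ ψ 0 = 0 ∧ ∀ᶠ y in 𝓝 (0:ℂ), F (ψ y) = y ^ m := by
  obtain ⟨m, g, hg, hg0, hFg⟩ := (hF.exists_eventuallyEq_pow_smul_nonzero_iff).2 hne
  simp only [sub_zero, smul_eq_mul] at hFg
  have hm : 0 < m := by
    rcases Nat.eq_zero_or_pos m with h | h
    · exfalso
      have h2 := hFg.self_of_nhds
      rw [h0, h, pow_zero, one_mul] at h2
      exact hg0 h2.symm
    · exact h
  obtain ⟨c, hc⟩ := IsAlgClosed.exists_pow_nat_eq (g 0) hm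
  have hc0 : c ≠ 0 := by
    rintro rfl
    rw [zero_pow hm.ne'] at hc
    exact hg0 hc.symm
  set v : ℂ → ℂ := fun z => c * Complex.exp (Complex.log (g z / g 0) / m) with hv
  have hva : AnalyticAt ℂ v 0 := by
    have h1 : AnalyticAt ℂ (fun z => g z / g 0) 0 := hg.div_const
    have h2 : AnalyticAt ℂ (fun z => Complex.log (g z / g 0)) 0 := by
      apply h1.clog
      rw [div_self hg0]
      exact Complex.one_mem_slitPlane
    have h3 : AnalyticAt ℂ (fun z => Complex.exp (Complex.log (g z / g 0) / m)) 0 :=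
      (h2.div_const).cexp
    exact analyticAt_const.mul h3
  have hv0 : v 0 = c := by
    simp only [hv]
    rw [div_self hg0, Complex.log_one, zero_div, Complex.exp_zero, mul_one]
  have hvpow : ∀ᶠ z in 𝓝 (0:ℂ), v z ^ m = g z := by
    have h1 : ∀ᶠ z in 𝓝 (0:ℂ), g z ≠ 0 := hg.continuousAt.eventually_ne hg0
    filter_upwards [h1] with z hz
    simp only [hv]
    rw [mul_pow, hc, ← Complex.exp_nat_mul, mul_div_cancel₀ _ (by exact_mod_cast hm.ne'),
      Complex.exp_log (div_ne_zero hz hg0), mul_div_cancel₀ _ hg0]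
  set φ : ℂ → ℂ := fun z => z * v z with hφ
  have hφa : AnalyticAt ℂ φ 0 := analyticAt_id.mul hva
  have hφ0 : φ 0 = 0 := by simp [hφ]
  have hφd : deriv φ 0 ≠ 0 := by
    have h1 : HasDerivAt φ (1 * v 0 + 0 * deriv v 0) 0 :=
      (hasDerivAt_id (0:ℂ)).mul hva.differentiableAt.hasDerivAt
    rw [h1.deriv, hv0]
    simpa using hc0
  set ψ := hφa.hasStrictDerivAt.localInverse _ _ _ hφd with hψ
  have hψa : AnalyticAt ℂ ψ 0 := by
    have := hφa.analyticAt_localInverse hφd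
    rwa [hφ0] at this
  have hψ0 : ψ 0 = 0 := by
    have h1 : ψ (φ 0) = 0 :=
      (HasStrictDerivAt.eventually_left_inverse hφa.hasStrictDerivAt hφd).self_of_nhds
    rwa [hφ0] at h1
  have hright : ∀ᶠ y in 𝓝 (0:ℂ), φ (ψ y) = y := by
    have := HasStrictDerivAt.eventually_right_inverse hφa.hasStrictDerivAt hφd
    rwa [hφ0] at this
  refine ⟨m, ψ, hm, hψa, hψ0, ?_⟩
  have hcont : Tendsto ψ (𝓝 0) (𝓝 0) := by
    have := hψa.continuousAt.tendsto
    rwa [hψ0] at this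
  filter_upwards [hright, hcont.eventually hFg, hcont.eventually hvpow] with y h1 h2 h3
  rw [h2, ← h3, ← mul_pow]
  congr 1

theorem exists_start {F : ℂ → ℂ} (hF : AnalyticAt ℂ F 0) (h0 : F 0 = 0)
    (hne : ¬ ∀ᶠ z in 𝓝 (0:ℂ), F z = 0) :
    ∃ (R : ℝ) (G₀ : ℂ → ℂ), DifferentiableOn ℂ G₀ {w | w.re < R} ∧
      (∀ w : ℂ, w.re < R → G₀ w ∈ ball (0:ℂ) 1 ∧ F (G₀ w) = Complex.exp w) ∧
      (∀ θ : ℝ, Tendsto (fun s : ℝ => G₀ (s + θ * Complex.I)) atBot (𝓝 0)) := by
  obtain ⟨m, ψ, hm, hψa, hψ0, hψF⟩ := exists_local_root hF h0 hne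
  have hcont : Tendsto ψ (𝓝 0) (𝓝 0) := by
    have := hψa.continuousAt.tendsto
    rwa [hψ0] at this
  have h1 : ∀ᶠ y in 𝓝 (0:ℂ), ψ y ∈ ball (0:ℂ) 1 :=
    hcont.eventually (ball_mem_nhds 0 one_pos)
  have h2 : ∀ᶠ y in 𝓝 (0:ℂ), DifferentiableAt ℂ ψ y := by
    filter_upwards [hψa.eventually_analyticAt] with y hy using hy.differentiableAt
  obtain ⟨r, hr, hball⟩ := Metric.eventually_nhds_iff_ball.1 (h1.and (h2.and hψF))
  have hm0 : (0:ℝ) < m := by exact_mod_cast hm
  have hmem : ∀ w : ℂ, w.re < m * Real.log r → Complex.exp (w / m) ∈ ball (0:ℂ) r := by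
    intro w hw
    rw [mem_ball_zero_iff, Complex.norm_exp]
    have : (w / m).re = w.re / m := by
      rw [show (m:ℂ) = ((m:ℝ):ℂ) by norm_cast, Complex.div_ofReal_re]
    rw [this, ← Real.exp_log hr, Real.exp_log hr]
    calc Real.exp (w.re / m) < Real.exp (Real.log r) := by
          apply Real.exp_lt_exp.mpr
          rw [div_lt_iff₀ hm0]; linarith
      _ = r := Real.exp_log hr
  refine ⟨m * Real.log r, fun w => ψ (Complex.exp (w / m)), ?_, ?_, ?_⟩
  · intro w hw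
    have h3 := (hball _ (hmem w hw)).2.1
    have h4 : DifferentiableAt ℂ (fun w : ℂ => Complex.exp (w / m)) w := by fun_prop
    exact (DifferentiableAt.comp w h3 h4).differentiableWithinAt
  · intro w hw
    refine ⟨(hball _ (hmem w hw)).1, ?_⟩
    rw [(hball _ (hmem w hw)).2.2, ← Complex.exp_nat_mul, mul_div_cancel₀ _ (by exact_mod_cast hm.ne')]
  · intro θ
    refine hcont.comp ?_
    rw [tendsto_zero_iff_norm_tendsto_zero]
    have h5 : ∀ s : ℝ, ‖Complex.exp (((s:ℂ) + θ * Complex.I) / m)‖ = Real.exp (s / m) := by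
      intro s
      rw [Complex.norm_exp, show (m:ℂ) = ((m:ℝ):ℂ) by norm_cast, Complex.div_ofReal_re]
      simp
    simp_rw [h5]
    exact Real.tendsto_exp_atBot.comp (tendsto_id.atBot_div_const hm0)

end Pool.Agent.Lib.EscapeRay
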