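import Pool.Agent.Lib.EscapeRay.Select
import Pool.Agent.H32.EscapeUpA
import Pool.Agent.H32.EscapeUpB

/-!
# A short escape path in every polynomial lemniscate

For a monic polynomial of degree `n ≥ 1` with all roots in the closed unit disc there is a path of
length at most `29 √n` from `0` to the unit circle inside the lemniscate `‖f z‖ ≤ 1`.
-/

open Set Filter Topology Metric MeasureTheory Polynomial
open scoped ENNReal

namespace Pool.Agent.Lib.EscapeRay

open Pool.Agent.H32.EscapeUp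

theorem exists_segment {E : Set ℂ} (hE : closedBall (0:ℂ) 1 ⊆ E) :
    ∃ γ : C(unitInterval, ℂ), γ 0 = 0 ∧ ‖γ 1‖ = 1 ∧ range γ ⊆ E ∧ μH[1] (range γ) ≤ 1 := by
  refine ⟨⟨fun t => ((t:ℝ):ℂ), by fun_prop⟩, by simp, by simp, ?_, ?_⟩
  · rintro _ ⟨t, rfl⟩
    apply hE
    rw [mem_closedBall_zero_iff]
    simp only [ContinuousMap.coe_mk, Complex.norm_real, Real.norm_eq_abs]
    rw [abs_of_nonneg t.2.1]
    exact t.2.2
  · have h1 : range (⟨fun t => ((t:ℝ):ℂ), by fun_prop⟩ : C(unitInterval, ℂ)) =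
        (fun t : ℝ => (t:ℂ)) '' Icc 0 1 := by
      ext z
      constructor
      · rintro ⟨t, rfl⟩
        exact ⟨t, t.2, rfl⟩
      · rintro ⟨t, ht, rfl⟩
        exact ⟨⟨t, ht⟩, rfl⟩
    rw [h1]
    have h2 : LipschitzOnWith 1 (fun t : ℝ => (t:ℂ)) (Icc 0 1) :=
      (Complex.isometry_ofReal.lipschitz).lipschitzOnWith
    have h3 := h2.hausdorffMeasure_image_le (d := 1) zero_le_one
    refine h3.trans ?_
    simp [Real.volume_Icc, MeasureTheory.hausdorffMeasure_real]

theorem upper {f : ℂ[X]} {n : ℕ} (hf : f.Monic) (hn : f.natDegree = n) (hn1 : 1 ≤ n)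
    (hroots : ∀ z, f.IsRoot z → ‖z‖ ≤ 1) :
    ∃ γ : C(unitInterval, ℂ), γ 0 = 0 ∧ ‖γ 1‖ = 1 ∧ range γ ⊆ {z | ‖f.eval z‖ ≤ 1} ∧
      μH[1] (range γ) ≤ ENNReal.ofReal (29 * Real.sqrt n) := by
  have hsqrt1 : 1 ≤ Real.sqrt n := by
    rw [Real.one_le_sqrt]; exact_mod_cast hn1
  have hs : ∀ w ∈ f.roots, ‖w‖ ≤ 1 := fun w hw => hroots w ((mem_roots hf.ne_zero).mp hw)
  have hcard : f.roots.card = n := by rw [card_roots_eq, hn]
  have hev : ∀ z : ℂ, ‖z‖ ≤ 1 → ‖f.eval z‖ ≤ ‖(gP f.roots).eval z‖ :=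
    fun z hz => eval_le_gP hf hroots hz
  set P : ℂ[X] := gP f.roots - 1 with hPdef
  by_cases hP : P = 0
  · obtain ⟨γ, h0, h1, h2, h3⟩ := exists_segment (E := {z : ℂ | ‖f.eval z‖ ≤ 1}) (by
      intro z hz
      rw [mem_closedBall_zero_iff] at hz
      have := hev z hz
      rw [sub_eq_zero.1 hP, eval_one, norm_one] at this
      exact this)
    refine ⟨γ, h0, h1, h2, h3.trans ?_⟩
    rw [← ENNReal.ofReal_one]
    apply ENNReal.ofReal_le_ofReal
    linarith
  have hF : DifferentiableOn ℂ (Flog f.roots) (ball 0 1) := Flog_differentiableOn hs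
  have hexp : ∀ z ∈ ball (0:ℂ) 1, Complex.exp (Flog f.roots z) = 1 + P.eval z := by
    intro z hz
    rw [exp_Flog hs (mem_ball_zero_iff.1 hz), hPdef, eval_sub, eval_one]
    ring
  have hne : ¬ ∀ᶠ z in 𝓝 (0:ℂ), Flog f.roots z = 0 := by
    intro h
    have h1 : ∀ᶠ z in 𝓝 (0:ℂ), P.eval z = 0 := by
      filter_upwards [h, isOpen_ball.mem_nhds (mem_ball_self one_pos : (0:ℂ) ∈ ball (0:ℂ) 1)]
        with z hz hz1
      have := hexp z hz1
      rw [hz, Complex.exp_zero] at this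
      exact (add_eq_left.1 this.symm)
    have h2 : {z : ℂ | P.eval z = 0}.Infinite := infinite_of_mem_nhds 0 h1
    exact hP (Polynomial.eq_zero_of_infinite_isRoot _ h2)
  have hP0 : P.eval 0 = 0 := by
    rw [hPdef, eval_sub, gP_eval_zero, eval_one, sub_self]
  have hder : P.derivative ≠ 0 := by
    intro h
    have h1 := Polynomial.derivative_eq_zero.1 h
    rw [Polynomial.natDegree_eq_zero] at h1
    obtain ⟨c, hc⟩ := h1
    rw [← hc, eval_C] at hP0
    rw [hP0, C_0] at hc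
    exact hP hc.symm
  have hcrit : {z ∈ ball (0:ℂ) 1 | deriv (Flog f.roots) z = 0}.Countable := by
    refine Set.Finite.countable (Set.Finite.subset (P.derivative.roots.toFinset.finite_toSet) ?_)
    rintro z ⟨hz, hz'⟩
    simp only [Finset.mem_coe, Multiset.mem_toFinset]
    rw [Polynomial.mem_roots hder, IsRoot.def]
    have h1 : HasDerivAt (Flog f.roots) (deriv (Flog f.roots) z) z :=
      (hF.differentiableAt (isOpen_ball.mem_nhds hz)).hasDerivAt
    have h2 : HasDerivAt (fun z => Complex.exp (Flog f.roots z))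
        (Complex.exp (Flog f.roots z) * deriv (Flog f.roots) z) z := h1.cexp
    have h3 : HasDerivAt (fun z => 1 + P.eval z) (P.derivative.eval z) z :=
      (P.hasDerivAt z).const_add 1
    have h4 : (fun z => Complex.exp (Flog f.roots z)) =ᶠ[𝓝 z] fun z => 1 + P.eval z := by
      filter_upwards [isOpen_ball.mem_nhds hz] with y hy using hexp y hy
    have h5 := (h3.congr_of_eventuallyEq h4).unique h2
    rw [h5, hz', mul_zero]
  have hpi := Real.pi_pos
  have hnpos : (0:ℝ) < n := by exact_mod_cast hn1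
  have hBd : ∀ z ∈ ball (0:ℂ) 1, ∀ θ ∈ Ioo (Real.pi / 2) (3 * Real.pi / 4), ∀ s : ℝ,
      Flog f.roots z = Complex.exp (s + θ * Complex.I) → s ≤ Real.log (n * Real.pi) := by
    intro z hz θ hθ s hs'
    have h1 := Flog_im hs (mem_ball_zero_iff.1 hz)
    rw [hs', Complex.exp_im, hcard] at h1
    have h4 : ((s:ℂ) + θ * Complex.I).im = θ := by simp
    have h5 : ((s:ℂ) + θ * Complex.I).re = s := by simp
    rw [h4, h5] at h1
    have h6 : 1 / 2 ≤ Real.sin θ := by
      have h7 : Real.sin (Real.pi - θ) = Real.sin θ := Real.sin_pi_sub θ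
      have h8 : Real.sin (Real.pi / 6) ≤ Real.sin (Real.pi - θ) := by
        apply Real.sin_le_sin_of_le_of_le_pi_div_two <;> linarith [hθ.1, hθ.2]
      rw [Real.sin_pi_div_six, h7] at h8
      exact h8
    have h7 : Real.exp s * Real.sin θ ≤ n * (Real.pi / 2) := (le_abs_self _).trans h1
    have h8 : Real.exp s ≤ n * Real.pi := by nlinarith [Real.exp_pos s]
    rw [Real.le_log_iff_exp_le (by positivity)]
    exact h8
  have hRay : ∀ θ ∈ Ioo (Real.pi / 2) (3 * Real.pi / 4), ∀ (z : ℝ → ℂ) (τ : ℝ),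
      ContinuousOn z (Iic τ) →
      (∀ s ≤ τ, z s ∈ ball (0:ℂ) 1 ∧ Flog f.roots (z s) = Complex.exp (s + θ * Complex.I)) →
      Tendsto z atBot (𝓝 0) → ∫⁻ s in Iic τ, ‖z s‖ₑ ≤ ENNReal.ofReal (100 * n) := by
    intro θ hθ z τ hz hzF hz0
    have := ray_integral_le hf (by rw [hn]; exact hn1) hroots hP ⟨hθ.1.le, hθ.2.le⟩ hz hzF hz0
    rwa [hn] at this
  have hconst : Real.pi * (7 / 2 * Real.sqrt n) + 1 / (2 * (7 / 2 * Real.sqrt n)) *
      (100 * n * (3 * Real.pi / 4 - Real.pi / 2)) <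
      29 * Real.sqrt n * (3 * Real.pi / 4 - Real.pi / 2) := by
    have h1 : Real.sqrt n * Real.sqrt n = n := Real.mul_self_sqrt hnpos.le
    have h2 : 0 < Real.sqrt n := by positivity
    have h3 : 1 / (2 * (7 / 2 * Real.sqrt n)) * (100 * n * (3 * Real.pi / 4 - Real.pi / 2)) =
        25 / 7 * Real.pi * Real.sqrt n := by
      have key : ∀ x m : ℝ, 0 < x → x * x = m → 1 / (2 * (7 / 2 * x)) *
          (100 * m * (3 * Real.pi / 4 - Real.pi / 2)) = 25 / 7 * Real.pi * x := by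
        rintro x m hx rfl
        field_simp
        ring
      exact key _ _ h2 h1
    rw [h3]
    nlinarith [mul_pos hpi h2]
  obtain ⟨θ, hθ, a, z, z', hz, hz'c, hz0, hz1, hzm, hzl⟩ := exists_short_ray hF
    (Flog_zero _) hne (by linarith) (by linarith) hcrit hBd (by positivity) hRay
    (by positivity) hconst
  have hE : IsClosed {z : ℂ | ‖f.eval z‖ ≤ 1} :=
    isClosed_le f.continuous.norm continuous_const
  refine exists_path hE hz hz'c hz0 hz1 ?_ hzl
  intro s hs'
  have h1 := (hzm s hs').1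
  have h2 := hev _ (mem_ball_zero_iff.1 h1).le
  refine h2.trans ?_
  have h5 : (gP f.roots).eval (z s) = 1 + P.eval (z s) := by
    rw [hPdef, eval_sub, eval_one]; ring
  rw [h5, ← hexp _ h1, (hzm s hs').2, Complex.norm_exp, Real.exp_le_one_iff, Complex.exp_re]
  have h3 : Real.cos θ ≤ 0 := Real.cos_nonpos_of_pi_div_two_le_of_le hθ.1.le (by linarith [hθ.2])
  have h4 : ((s:ℂ) + θ * Complex.I).im = θ := by simp
  rw [h4]
  exact mul_nonpos_of_nonneg_of_nonpos (Real.exp_pos _).le h3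

end Pool.Agent.Lib.EscapeRay
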